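import Pool.Agent.W_448na_h84.NaB
import Pool.Agent.W_448kr_h10.KrA
import Pool.Agent.W_448nv_h97.NvB
import Pool.Agent.W_448wd_h84.WdE

/-!
# MP_448cb3_co, case B, STEP 0 at the level 8: natural rows with at least four sites on the level 7,
functional `<-1, 7, 1, 2, 1, 1, 1, 6, 2>` (helper84)
-/

namespace Pool.Agent.GaussPoset.Wd

set_option linter.unusedSectionVars false

open Finset Win Win.I2 Win.Rc EK Win.Pn

universe u

variable {P : Type u} [Fintype P] [PartialOrder P] [DecidableEq P] {r j i : ℕ}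
  {t : Tops P} {lo hi : ℕ → ℕ} {e : ℕ → ℕ → P} {m : ℕ} {x : ℕ → P} {c : ℕ → ℤ} {β : ℤ}

/-- a late component of the level 8 has at most three elements on the level 7 -/
lemma late8_V7 {a : ℕ} (hlo : ∀ k, k < 8 → lo (k + 1) = lo k ∨ lo (k + 1) = lo k + 1)
    (hhi : ∀ k, k < 8 → hi (k + 1) = hi k ∨ hi (k + 1) = hi k + 1) (h0 : 3 ≤ a) (h1 : a ≤ 8)
    (h2 : ∀ k, k < a → lo k = 0 ∧ hi k = 0) (h3 : lo a = 0 ∧ hi a = 1)
    (h4 : ((1 ≤ 8 - a ∧ 8 - a ≤ a) ∧ word lo hi a (8 - a) = Qw (8 - a)) ∨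
      word lo hi a (8 - a) ∈ lateW a) : hi 7 < lo 7 + 3 := by
  have s3 := hlo 3 (by omega)
  have s4 := hlo 4 (by omega)
  have s5 := hlo 5 (by omega)
  have s6 := hlo 6 (by omega)
  have t3 := hhi 3 (by omega)
  have t4 := hhi 4 (by omega)
  have t5 := hhi 5 (by omega)
  have t6 := hhi 6 (by omega)
  simp only [Nat.reduceAdd] at s3 s4 s5 s6 t3 t4 t5 t6
  have h27 := h2 7
  interval_cases a
  · rcases h4 with ⟨-, h4⟩ | h4
    · simp [word, Qw, CC, OC, List.range_succ] at h4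
      omega
    · simp [word, lateW, OO, OC, CO, CC, List.range_succ] at h4
      omega
  · rcases h4 with ⟨-, h4⟩ | h4
    · simp [word, Qw, CC, OC, List.range_succ] at h4
      omega
    · simp [word, lateW, OO, OC, CO, CC, List.range_succ] at h4
      omega
  · rcases h4 with ⟨-, h4⟩ | h4
    · simp [word, Qw, CC, OC, List.range_succ] at h4
      omega
    · simp [word, lateW, OO, OC, CO, List.range_succ] at h4
      omega
  · omega
  · omega
  · omega

/-- no pendants on the level 7 window of a component with at least four elements there -/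
theorem NJ.no_pend8 (h : NJ P r 8) (C : Cp.Comp 8 (t : P) lo hi e) (S : Shape 8 lo hi)
    (hb : lo 7 + 3 ≤ hi 7) : ∀ q ∈ SS 7 t, q ∉ PD P 7 ∧ q ∉ PU P 7 := by
  classical
  rcases h.pd_coord (i := 7) (j := 8) rfl (by omega) C hb with hN | ⟨n, hn, y, p, u, D, hcase⟩
  · exact hN
  exfalso
  obtain rfl : n = 5 := by omega
  simp only [Nat.reduceAdd] at hcase
  have key : ¬ ((lo 6 = lo 5 + 1 ∧ lo 7 = lo 6) ∨ (hi 6 = hi 5 ∧ hi 7 = hi 6 + 1)) := by
    have l5 := C.hi_le (k := 5) (by omega)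
    have l6 := C.hi_le (k := 6) (by omega)
    rcases S with h | ⟨h1, h2⟩ | ⟨h1, h2⟩ | ⟨h1, h2, h3⟩ | ⟨h1, h2⟩ | ⟨a, h0, h1, h2, h3, hN, h4⟩
    · have := h 7 (by omega)
      omega
    · have a1 := h2.lo 5 (by omega)
      have a2 := h2.lo 6 (by omega)
      have a3 := h2.hi 5 (by omega)
      have a4 := h2.hi 6 (by omega)
      simp only [Nat.reduceAdd] at a1 a2 a3 a4
      omega
    · have a1 := h2.lo 5 (by omega)
      have a2 := h2.lo 6 (by omega)
      have a3 := h2.hi 5 (by omega)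
      have a4 := h2.hi 6 (by omega)
      simp only [Nat.reduceAdd] at a1 a2 a3 a4
      omega
    · omega
    · omega
    · have := late8_V7 (fun k hk => C.lo_step k hk) (fun k hk => C.hi_step k hk) h0 h1 h2 h3 h4
      omega
  rcases hcase with ⟨q1, q2, -⟩ | ⟨q1, q2, -⟩
  · exact key (Or.inl ⟨q1, q2⟩)
  · exact key (Or.inr ⟨q1, q2⟩)

/-- NATURAL ROWS OF THE LEVEL 8 with at least four elements on the level 7: the value is nonnegative,
and the part has no pendant of the window 7 -/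
theorem NJ.v8_nat_big (h : NJ P r 8) (B : RowB P 8 t m x c β) (C : Cp.Comp 8 (t : P) lo hi e)
    (S : Shape 8 lo hi) (hβ : β = 0) (hc : ∀ k, k < m → c k = 0)
    (h4 : 4 ≤ (st 7 (SS 7 t)).card) :
    0 ≤ 2 * own ⟨-1, 7, 1, 2, 1, 1, 1, 6, 2⟩ 7 8 t +
      ∑ p ∈ (PD P 7).filter (fun p => (topOf p : Tops P) = t),
        shr ⟨-1, 7, 1, 2, 1, 1, 1, 6, 2⟩ 7 p := by
  classical
  have H := h.g.H
  have hn : NatT 8 (t : P) := RowB.nat_of h B hc hβ
  have hcard := h.card_SS (i := 7) (by omega) C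
  have hb : lo 7 + 3 ≤ hi 7 := by omega
  have hN := NJ.no_pend8 h C S hb
  have f1 : FL 7 (SS 7 t) = ∅ := by
    rw [eq_empty_iff_forall_notMem]
    intro w hw
    rw [mem_FL] at hw
    obtain ⟨hw1, z, hz1, hz2⟩ := hw
    have hzw : w ⋖ z := by rw [← mem_uc, hz2]; simp
    have hz : z ∈ SS 7 t := (h.part (i := 7) (k := 8 + 1) (by omega) (by omega) t).up hw1 hzw
    exact (hN z hz).1 hz1
  have f2 : FU' 7 (SS 7 t) = ∅ := by
    rw [eq_empty_iff_forall_notMem]
    intro w hw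
    rw [mem_FU'] at hw
    obtain ⟨hw1, z, hz1, hz2⟩ := hw
    have lz := (mem_PU.1 hz1).1
    have hzw : z ⋖ w := by rw [← mem_dc, hz2]; simp
    have lw := lev_cov H hzw
    have hwt : w ≤ (t : P) := (h.mem (by omega) t (by omega)).1 hw1
    have hzS : z ∈ SS 7 t := (h.mem (by omega) t (by omega)).2 (hzw.le.trans hwt)
    exact (hN z hzS).2 hz1
  have k2 : fa 7 (SS 7 t) = 0 := by
    unfold fa
    rw [f1, f2]
    simp
  have k3 : (PD P 7).filter (fun p => (topOf p : Tops P) = t) = ∅ := by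
    rw [eq_empty_iff_forall_notMem]
    intro q hq
    rw [mem_filter] at hq
    obtain ⟨hq1, hq2⟩ := hq
    have lq := (mem_PD.1 hq1).1
    exact (hN q ((h.mem (by omega) t (by omega)).2 (hq2 ▸ le_topOf q))).1 hq1
  have o1 := h.own1_nat (i := 7) (j := 8) rfl (by omega) B ⟨-1, 7, 1, 2, 1, 1, 1, 6, 2⟩ h4 hc
    (q := 0) (Nat.zero_le _) (by
      intro z hz
      rw [f1, f2] at hz
      simp at hz)
  have n1_0 : 0 ≤ n1 7 (SS 7 t) := by
    unfold n1
    exact Int.natCast_nonneg _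
  have e3 := EK.NJ.nat_F3 h (by omega) hn
  obtain ⟨-, e2⟩ := EK.NJ.nat_win h (by omega) hn
  have g1 := card_le_card (W4.DU_sub 8 (cext (8 + 1) (topOf : P → Tops P) t))
  have g2 := card_le_card (W4.T4_subset 8 (cext (8 + 1) (topOf : P → Tops P) t))
  obtain ⟨K, psi, R⟩ := exists_red P 8
  have e6 := (EK.NJ.w3_sq h (by omega) R t).1
  have e6' : 0 ≤ Pn.F6 8 t := e6
  rw [k3, sum_empty, own_eq, o1, k2]
  unfold own2
  simp only
  rw [e3]
  have g1' : (((W4.DU 8 (cext (8 + 1) (topOf : P → Tops P) t)).card : ℕ) : ℤ) ≤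
    (W4.DC 8 (cext (8 + 1) (topOf : P → Tops P) t)).card := by exact_mod_cast g1
  have g2' : (((W4.T4 8 (cext (8 + 1) (topOf : P → Tops P) t)).card : ℕ) : ℤ) ≤
    (W4.Z4 8 (cext (8 + 1) (topOf : P → Tops P) t)).card := by exact_mod_cast g2
  have g3' : (0 : ℤ) ≤ (W4.D2 8 (cext (8 + 1) (topOf : P → Tops P) t)).card :=
    Int.natCast_nonneg _
  linarith

end Pool.Agent.GaussPoset.Wd
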